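import Pool.Agent.W31.LD.Defs

set_option autoImplicit false

namespace Pool.Agent.W962.LD.NumEasy

open W31LD

theorem mu_nn (B i : ℕ) (hB : 1 ≤ B) : 0 ≤ mu B i := by
  unfold mu
  have h1 : (1 : ℝ) ≤ B := by exact_mod_cast hB
  have h2 : 0 ≤ Real.log B := Real.log_nonneg h1
  positivity

theorem mu_le (B i : ℕ) (hB : 1 ≤ B) : mu B i ≤ 1 / 240 := by
  unfold mu
  have h1 : (1 : ℝ) ≤ B := by exact_mod_cast hB
  have h2 : Real.log B ≤ B := (Real.log_le_sub_one_of_pos (by linarith)).trans (by linarith)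
  have h3 : (0 : ℝ) ≤ i := Nat.cast_nonneg i
  rw [div_le_div_iff₀ (by positivity) (by norm_num)]
  linarith

theorem pow_bound : ∀ r : ℕ, 20 ≤ r → (r : ℝ) + 1 ≤ 1 / 4 * (3 / 2 : ℝ) ^ r := by
  intro r hr
  induction r, hr using Nat.le_induction with
  | base => norm_num
  | succ r hr ih =>
    rw [pow_succ]
    push_cast
    have h1 : (20 : ℝ) ≤ r := by exact_mod_cast hr
    nlinarith

theorem done : W31LD.T_Num_easy := by
  refine ⟨1, fun B hB i hi => ⟨?_, ?_, ?_, ?_, ?_, ?_, ?_⟩⟩
  · simp [gg]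
  · intro n
    unfold gg
    split_ifs
    · norm_num
    · positivity
  · unfold gg
    rw [if_neg one_ne_zero]
    have h1 := mu_le B (i + 1) hB
    have h0 := mu_nn B (i + 1) hB
    have h2 : Real.exp (-(mu B (i + 1) * (((1 : ℕ) : ℝ) - 2))) ≤ 3 / 2 := by
      have h3 : -(mu B (i + 1) * (((1 : ℕ) : ℝ) - 2)) = mu B (i + 1) := by
        push_cast
        ring
      rw [h3]
      have h4 : Real.exp (mu B (i + 1)) ≤ 1 / (1 - mu B (i + 1)) := by
        have h5 := Real.add_one_le_exp (-(mu B (i + 1)))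
        rw [Real.exp_neg] at h5
        have h6 : 0 < 1 - mu B (i + 1) := by linarith
        rw [le_div_iff₀ h6]
        have h7 := Real.exp_pos (mu B (i + 1))
        calc Real.exp (mu B (i + 1)) * (1 - mu B (i + 1))
            ≤ Real.exp (mu B (i + 1)) * (Real.exp (mu B (i + 1)))⁻¹ :=
              mul_le_mul_of_nonneg_left (by linarith) h7.le
          _ = 1 := mul_inv_cancel₀ h7.ne'
      refine h4.trans ?_
      rw [div_le_div_iff₀ (by linarith) (by norm_num)]
      linarith
    linarith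
  · intro n hn
    unfold gg
    rw [if_neg (by omega)]
    have h0 := mu_nn B (i + 1) hB
    have h2 : (2 : ℝ) ≤ n := by exact_mod_cast hn
    have h3 : Real.exp (-(mu B (i + 1) * ((n : ℝ) - 2))) ≤ 1 := by
      rw [Real.exp_le_one_iff]
      have := mul_nonneg h0 (sub_nonneg.2 h2)
      linarith
    linarith
  · intro r
    unfold th
    have h0 := mu_nn B i hB
    positivity
  · intro r
    unfold th
    have h0 := mu_nn B i hB
    rw [pow_succ]
    have h1 : (0 : ℝ) ≤ 8 * mu B i * (3 / 4) ^ r := by positivity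
    nlinarith
  · intro r _ hr
    have h0 := mu_nn B i hB
    have h1 := mu_le B i hB
    have h0' := mu_nn B (i + 1) hB
    have h1' := mu_le B (i + 1) hB
    have hth : th B i r ≤ 1 / 2 := by
      unfold th
      have h2 : (3 / 4 : ℝ) ^ r ≤ 1 := pow_le_one₀ (by norm_num) (by norm_num)
      have h3 : (0 : ℝ) ≤ (3 / 4) ^ r := by positivity
      nlinarith
    have hgg : 1 / 2 * (3 / 4 : ℝ) ^ r ≤ gg B (i + 1) r := by
      unfold gg
      rw [if_neg (by omega)]
      have h5 : (3 / 4 : ℝ) ^ r ≤ Real.exp (-(mu B (i + 1) * ((r : ℝ) - 2))) := by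
        have h6 : (3 / 4 : ℝ) ≤ Real.exp (-(mu B (i + 1))) := by
          have := Real.add_one_le_exp (-(mu B (i + 1)))
          linarith
        calc (3 / 4 : ℝ) ^ r ≤ (Real.exp (-(mu B (i + 1)))) ^ r :=
              pow_le_pow_left₀ (by norm_num) h6 r
          _ = Real.exp ((r : ℝ) * (-(mu B (i + 1)))) := (Real.exp_nat_mul _ _).symm
          _ ≤ Real.exp (-(mu B (i + 1) * ((r : ℝ) - 2))) := by
              apply Real.exp_le_exp.2
              nlinarith
      linarith
    have hpb := pow_bound r (by omega)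
    have h2r : (0 : ℝ) < 2 ^ r := by positivity
    calc (r : ℝ) + 1 ≤ 1 / 4 * (3 / 2 : ℝ) ^ r := hpb
      _ = 1 / 2 * ((1 / 2 * (3 / 4 : ℝ) ^ r) * 2 ^ r) := by
          rw [show (3 / 2 : ℝ) = 3 / 4 * 2 by norm_num, mul_pow]
          ring
      _ ≤ 1 / 2 * (gg B (i + 1) r * 2 ^ r) :=
          mul_le_mul_of_nonneg_left (mul_le_mul_of_nonneg_right hgg h2r.le) (by norm_num)
      _ ≤ (1 - th B i r) * (gg B (i + 1) r * 2 ^ r) := by
          apply mul_le_mul_of_nonneg_right (by linarith)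
          have : (0 : ℝ) ≤ 1 / 2 * (3 / 4 : ℝ) ^ r := by positivity
          exact mul_nonneg (this.trans hgg) h2r.le

end Pool.Agent.W962.LD.NumEasy
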